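import Pool.Agent.W203.BE.Stms

set_option autoImplicit false

/-! BE-LOW: the low frequency part is controlled by the maximal function. -/

namespace Pool.Agent.W52.BE

open MeasureTheory Set
open scoped ENNReal
open Pool.Agent.W203.BE

theorem be_bound {κ a s : ℝ} (hκ : 0 < κ) (ha1 : 1 ≤ a) (ha2 : a ≤ 2) :
    0 < (be κ a s).re ∧ κ * (1 + |s|) ≤ (be κ a s).re ∧
      ‖be κ a s‖ ^ 2 ≤ 20 * Real.pi ^ 2 * (be κ a s).re * (κ * (1 + |s|)) := by
  have hs := abs_nonneg s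
  set τ : ℝ := κ * (1 + |s|) with hτ
  have hτ0 : 0 < τ := by positivity
  have hre : (be κ a s).re = κ * (a + 1 + |s|) := rfl
  have him : (be κ a s).im = κ * (2 * Real.pi * a * s) := rfl
  have h1 : τ ≤ (be κ a s).re := by
    rw [hre, hτ]
    apply mul_le_mul_of_nonneg_left _ hκ.le
    linarith
  have h2 : (be κ a s).re ≤ 3 * τ := by
    rw [hre, hτ]
    have : κ * (a + 1 + |s|) ≤ κ * (3 * (1 + |s|)) := by
      apply mul_le_mul_of_nonneg_left _ hκ.le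
      linarith
    linarith
  have h3 : (be κ a s).im ^ 2 ≤ 16 * Real.pi ^ 2 * τ ^ 2 := by
    have e1 : (be κ a s).im ^ 2 = 4 * Real.pi ^ 2 * a ^ 2 * (κ * |s|) ^ 2 := by
      rw [him, mul_pow κ |s|, sq_abs]
      ring
    have e2 : a ^ 2 ≤ 2 ^ 2 := by gcongr
    have e3 : κ * |s| ≤ τ := by
      rw [hτ]
      apply mul_le_mul_of_nonneg_left _ hκ.le
      linarith
    rw [e1]
    calc 4 * Real.pi ^ 2 * a ^ 2 * (κ * |s|) ^ 2 ≤ 4 * Real.pi ^ 2 * 2 ^ 2 * τ ^ 2 := by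
          gcongr
      _ = _ := by ring
  refine ⟨hτ0.trans_le h1, h1, ?_⟩
  have hpi := Real.pi_gt_three
  have e4 : ‖be κ a s‖ ^ 2 = (be κ a s).re ^ 2 + (be κ a s).im ^ 2 := by
    rw [← Complex.normSq_eq_norm_sq, Complex.normSq_apply]
    ring
  rw [e4]
  set r : ℝ := (be κ a s).re with hr
  have hr0 : 0 < r := hτ0.trans_le h1
  have hp : 9 ≤ Real.pi ^ 2 := by nlinarith
  have e5 : r ^ 2 ≤ 3 * τ * r := by nlinarith
  have e6 : (20 * Real.pi ^ 2 - 3) * τ ^ 2 ≤ (20 * Real.pi ^ 2 - 3) * (r * τ) := by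
    apply mul_le_mul_of_nonneg_left _ (by linarith)
    nlinarith
  have e7 : 0 ≤ (4 * Real.pi ^ 2 - 3) * τ ^ 2 := by
    apply mul_nonneg (by linarith) (sq_nonneg _)
  nlinarith

theorem g1_bound (hB : S_BAS) {κ a s : ℝ} (hκ : 0 < κ) (ha1 : 1 ≤ a) (ha2 : a ≤ 2) (x : ℝ) :
    ‖g1 (be κ a s) x‖ₑ ≤ ENNReal.ofReal (Real.sqrt Real.pi) *
      mk (Real.sqrt (κ * (1 + |s|))) x := by
  obtain ⟨h0, h1, h2⟩ := be_bound (s := s) hκ ha1 ha2
  have hs := abs_nonneg s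
  have hnorm := (hB (be κ a s) h0).2.2.1 x
  set τ : ℝ := κ * (1 + |s|) with hτ
  have hτ0 : 0 < τ := by positivity
  set α := be κ a s with hα
  have hpi := Real.pi_pos
  have hn : τ ≤ ‖α‖ := h1.trans ((le_abs_self _).trans (Complex.abs_re_le_norm α))
  have hn0 : 0 < ‖α‖ := hτ0.trans_le hn
  have hst : 0 < Real.sqrt τ := Real.sqrt_pos.2 hτ0
  unfold mk
  rw [← ENNReal.ofReal_mul (Real.sqrt_nonneg _), ← ofReal_norm_eq_enorm, hnorm]
  apply ENNReal.ofReal_le_ofReal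
  have e1 : Real.sqrt (Real.pi / ‖α‖) ≤ Real.sqrt Real.pi * (Real.sqrt τ)⁻¹ := by
    rw [← div_eq_mul_inv, ← Real.sqrt_div hpi.le]
    apply Real.sqrt_le_sqrt
    gcongr
  have e2 : Real.exp (-(Real.pi ^ 2 * α.re / ‖α‖ ^ 2 * x ^ 2)) ≤
      Real.exp (-(x ^ 2 / (20 * Real.sqrt τ ^ 2))) := by
    apply Real.exp_le_exp.2
    rw [neg_le_neg_iff, Real.sq_sqrt hτ0.le]
    have e3 : 1 / (20 * τ) ≤ Real.pi ^ 2 * α.re / ‖α‖ ^ 2 := by
      rw [div_le_div_iff₀ (by positivity) (by positivity)]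
      linarith
    calc x ^ 2 / (20 * τ) = 1 / (20 * τ) * x ^ 2 := by ring
      _ ≤ _ := by gcongr
  calc Real.sqrt (Real.pi / ‖α‖) * Real.exp (-(Real.pi ^ 2 * α.re / ‖α‖ ^ 2 * x ^ 2)) ≤
      Real.sqrt Real.pi * (Real.sqrt τ)⁻¹ * Real.exp (-(x ^ 2 / (20 * Real.sqrt τ ^ 2))) :=
        mul_le_mul e1 e2 (Real.exp_nonneg _) (by positivity)
    _ = _ := by ring

theorem low : S_BAS → S_LOW := by
  intro hB n
  refine ⟨Real.sqrt Real.pi ^ n, by have := Real.pi_pos; positivity, ?_⟩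
  intro κ hκ s a ha f hf x
  have hs := abs_nonneg s
  set t : ℝ := Real.sqrt (κ * (1 + |s|)) with ht
  have ht0 : 0 < t := Real.sqrt_pos.2 (by positivity)
  have h1 : ‖T (fun j => be κ (a j) s) f x‖ₑ ≤
      ∫⁻ y, ENNReal.ofReal (Real.sqrt Real.pi ^ n) * ((∏ j, mk t (x j - y j)) * ‖f y‖ₑ) := by
    unfold T
    refine (enorm_integral_le_lintegral_enorm _).trans (lintegral_mono fun y => ?_)
    rw [enorm_mul, ← mul_assoc]
    apply mul_le_mul_left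
    unfold gn
    have e1 : ‖∏ j, g1 (be κ (a j) s) ((x - y) j)‖ₑ = ∏ j, ‖g1 (be κ (a j) s) ((x - y) j)‖ₑ := by
      simp only [← ofReal_norm_eq_enorm]
      rw [norm_prod, ENNReal.ofReal_prod_of_nonneg (fun i _ => norm_nonneg _)]
    rw [e1]
    have e2 : ∏ j, ‖g1 (be κ (a j) s) ((x - y) j)‖ₑ ≤
        ∏ j : Fin n, (ENNReal.ofReal (Real.sqrt Real.pi) * mk t (x j - y j)) := by
      refine Finset.prod_le_prod' fun j _ => ?_
      exact g1_bound hB hκ (ha.1 j) (ha.2 j) _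
    refine e2.trans (le_of_eq ?_)
    rw [Finset.prod_mul_distrib, Finset.prod_const, Finset.card_univ, Fintype.card_fin,
      ENNReal.ofReal_pow (Real.sqrt_nonneg _)]
  refine h1.trans ?_
  rw [lintegral_const_mul' _ _ ENNReal.ofReal_ne_top]
  apply mul_le_mul_right
  unfold MM
  exact le_iSup (fun t : {t : ℝ // 0 < t} => ∫⁻ y, (∏ j, mk (t : ℝ) (x j - y j)) * ‖f y‖ₑ) ⟨t, ht0⟩

end Pool.Agent.W52.BE
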